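import Pool.Agent.H88C.Main
import Pool.Agent.H6T.Lab2
import Pool.Agent.H62P.Pkg

/-! The bridge from the two connected step to the count. -/

set_option autoImplicit false

namespace Pool.Agent.H32W

open List Pool.Agent.TF82 Pool.Agent.TFC Pool.Agent.TFB Pool.Agent.TFN Pool.Agent.TFG
  Pool.Agent.EG31 Pool.Agent.H18C Pool.Agent.H62P Pool.Agent.H72N Pool.Agent.H6T.Lab

universe u

set_option linter.unusedSectionVars false
set_option linter.unusedVariables false

variable {V : Type u} [DecidableEq V] [Fintype V] {G : SimpleGraph V} [DecidableRel G.Adj]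
  {W : Finset V} {b : ℕ} {F : List (List V)} {J : Finset V}

/-- the situation of the two connected step: a longest cycle, the members `J` -/
structure MS (G : SimpleGraph V) [DecidableRel G.Adj] (W : Finset V) (b : ℕ)
    (F : List (List V)) (J : Finset V) : Prop where
  hM : IsMax G F.length F
  hF1 : F.length = 1
  h2 : Conn2 G Finset.univ
  JU : J ⊆ unc F
  ind : G.IsIndepSet (J : Set V)
  good : ∀ x ∈ J, Good G (comp G F x) (Sp G W F (comp G F x)) x
  sur : ∀ x ∈ J, CWg G (comp G F x) (Sp G W F (comp G F x))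
    (b + (J \ comp G F x).card + (W \ comp G F x).card)
  near : ∀ x ∈ J, ∀ N ⊆ comp G F x,
    (∀ y ∈ N, ∀ z ∈ N, Near G (comp G F x) (Sp G W F (comp G F x)) y z) →
    ∑ v ∈ J ∩ comp G F x, dU G (comp G F x) v + N.card ≤ (comp G F x).card
  p1 : ∀ x ∈ J, H62P.P1 G (comp G F x) (Sp G W F (comp G F x))
    (b + (J \ comp G F x).card + (W \ comp G F x).card) (J ∩ comp G F x)
  p2 : ∀ x ∈ J, H62P.P2 G (comp G F x) (Sp G W F (comp G F x))
    (b + (J \ comp G F x).card + (W \ comp G F x).card) (J ∩ comp G F x)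
  big : (J.image (comp G F)).card + 2 + (W ∩ F.flatten.toFinset).card < F.flatten.length

/-- links through the component `Z` -/
def LkZ (G : SimpleGraph V) (F : List (List V)) (Z : Finset V) (l : ℕ) (s t : V) : Prop :=
  ∃ y ∈ unc F, comp G F y = Z ∧ Link G F y l s t

theorem comp_out {x w z : V} (hw : w ∈ comp G F x) (hz : z ∉ comp G F x) (h : G.Adj w z) :
    z ∈ F.flatten := by
  by_contra hc
  have h1 : z ∈ unc F := mem_unc.2 hc
  exact hz (mem_comp.2 ⟨h1, Relation.ReflTransGen.tail (mem_comp.1 hw).2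
    ⟨(mem_comp.1 hw).1, h1, h⟩⟩)

theorem comp_ncov {x z : V} (hz : z ∈ comp G F x) : z ∉ F.flatten :=
  mem_unc.1 (mem_comp.1 hz).1

/-- a hub different from a given vertex -/
theorem exists_hub (h2 : Conn2 G Finset.univ) {x : V} (hx : x ∈ unc F) {u u' : V}
    (hu : u ∈ F.flatten) (hu' : u' ∈ F.flatten) (hne : u' ≠ u) :
    ∃ v ∈ F.flatten, v ≠ u ∧ ∃ q ∈ comp G F x, G.Adj v q := by
  by_contra hcon
  push Not at hcon
  have hr := h2 u (Finset.mem_univ _) x (Finset.mem_erase.2
    ⟨fun h => mem_unc.1 hx (h ▸ hu), Finset.mem_univ _⟩) u' (Finset.mem_erase.2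
    ⟨hne, Finset.mem_univ _⟩)
  have := closed_reach (T := comp G F x) (fun w hw z hz hwz => by
    by_contra hzc
    have h1 := comp_out hw hzc hwz
    exact hcon z h1 (Finset.mem_erase.1 hz).1 w hw hwz.symm) hr (self_comp hx)
  exact comp_ncov this hu'

/-- a hub that sees a member is rich -/
theorem rich_of_mem {x v : V} (hg : Good G (comp G F x) (Sp G W F (comp G F x)) x)
    (hv : v ∈ F.flatten) (hvx : G.Adj v x) : Rich G W F (comp G F x) v := by
  by_contra hcon
  have hx := hg.mem
  have h1 : ∀ x' ∈ comp G F x, G.Adj v x' → x' = x := by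
    intro x' hx' hvx'
    by_contra hne
    apply hcon
    refine ⟨x, hx, x', hx', hvx, hvx', fun hn => ?_⟩
    exact hne (Good.near_eq hg hn).symm
  exact hg.nS (Finset.mem_union_right _ (mem_XX.2 ⟨hx, fun hW => hg.nS (Finset.mem_union_left _
    (Finset.mem_inter.2 ⟨hW, hx⟩)), hg.nc, v, hv, hvx, h1⟩))

/-- every hub has a neighbour different from a given member -/
theorem other_nb {x v : V} (hg : Good G (comp G F x) (Sp G W F (comp G F x)) x)
    (hv : v ∈ F.flatten) (hq : ∃ q ∈ comp G F x, G.Adj v q) :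
    ∃ q ∈ comp G F x, q ≠ x ∧ G.Adj v q := by
  obtain ⟨q, hq, hvq⟩ := hq
  by_cases hqx : q = x
  · subst hqx
    obtain ⟨x1, hx1, x2, hx2, h1, h2, h3⟩ := rich_of_mem hg hv hvq
    by_cases h : x1 = q
    · refine ⟨x2, hx2, ?_, h2⟩
      rintro rfl
      rw [h] at h3
      exact h3 (near_refl _)
    · exact ⟨x1, hx1, h, h1⟩
  · exact ⟨q, hq, hqx, hvq⟩

namespace MS

variable (h : MS G W b F J)

include h

theorem good' {x y : V} (hx : x ∈ J) (hy : y ∈ J ∩ comp G F x) :
    Good G (comp G F x) (Sp G W F (comp G F x)) y := by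
  obtain ⟨h1, h2⟩ := Finset.mem_inter.1 hy
  have := h.good y h1
  rw [comp_eq h2] at this
  exact this

theorem card_others (x : V) :
    ∑ Z ∈ (J.image (comp G F)).erase (comp G F x), (J ∩ Z).card ≤ (J \ comp G F x).card := by
  classical
  rw [← Finset.card_biUnion]
  · refine Finset.card_le_card ?_
    intro y hy
    obtain ⟨Z, hZ, hy⟩ := Finset.mem_biUnion.1 hy
    obtain ⟨h1, h2⟩ := Finset.mem_inter.1 hy
    obtain ⟨hne, hZ⟩ := Finset.mem_erase.1 hZ
    obtain ⟨z, hz, rfl⟩ := Finset.mem_image.1 hZ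
    refine Finset.mem_sdiff.2 ⟨h1, fun hc => hne ?_⟩
    rw [← comp_eq h2, comp_eq hc]
  · intro Z hZ Z' hZ' hne
    rw [Function.onFun, Finset.disjoint_left]
    intro y hy hy'
    apply hne
    obtain ⟨z, hz, rfl⟩ := Finset.mem_image.1 (Finset.mem_of_mem_erase hZ)
    obtain ⟨z', hz', rfl⟩ := Finset.mem_image.1 (Finset.mem_of_mem_erase hZ')
    rw [← comp_eq (Finset.mem_inter.1 hy).2, ← comp_eq (Finset.mem_inter.1 hy').2]

theorem one_le {Z : Finset V} (hZ : Z ∈ J.image (comp G F)) : 1 ≤ (J ∩ Z).card := by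
  obtain ⟨x, hx, rfl⟩ := Finset.mem_image.1 hZ
  exact Finset.card_pos.2 ⟨x, Finset.mem_inter.2 ⟨hx, self_comp (h.JU hx)⟩⟩

theorem card_comps (x : V) (hx : x ∈ J) : (J.image (comp G F)).card ≤
    (J \ comp G F x).card + 1 := by
  have h1 := h.card_others x
  have h2 : ((J.image (comp G F)).erase (comp G F x)).card ≤
      ∑ Z ∈ (J.image (comp G F)).erase (comp G F x), (J ∩ Z).card := by
    rw [Finset.card_eq_sum_ones]
    exact Finset.sum_le_sum (fun Z hZ => h.one_le (Finset.mem_of_mem_erase hZ))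
  have h3 := Finset.card_erase_of_mem (Finset.mem_image.2 ⟨x, hx, rfl⟩ :
    comp G F x ∈ J.image (comp G F))
  omega

theorem card_W (x : V) : (W ∩ F.flatten.toFinset).card ≤ (W \ comp G F x).card := by
  refine Finset.card_le_card ?_
  intro y hy
  obtain ⟨h1, h2⟩ := Finset.mem_inter.1 hy
  exact Finset.mem_sdiff.2 ⟨h1, fun hc => comp_ncov hc (List.mem_toFinset.1 h2)⟩

/-- the data of the count -/
noncomputable def dat : H88C.Dat V (Finset V) where
  C := F.flatten.toFinset
  b := prv F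
  K := J.image (comp G F)
  W := W
  Adj := G.Adj
  A := fun Z v => ∃ q ∈ Z, G.Adj v q
  str := fun Z v => Rich G W F Z v
  n := fun Z v => ((J ∩ Z).filter (fun x => G.Adj v x)).card
  m := fun Z => (J ∩ Z).card
  Lk := LkZ G F
  hbC := fun v hv => List.mem_toFinset.2 (prv_mem h.hM.fam (List.mem_toFinset.1 hv))
  hinj := fun v hv w hw he => prv_inj h.hM.fam (List.mem_toFinset.1 hv) (List.mem_toFinset.1 hw) he
  hret := fun v hv i hi hi' => iter_ne_one h.hM.fam h.hF1 (List.mem_toFinset.1 hv) i hi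
    (hi'.trans_le (List.toFinset_card_le _))
  htr := fun v hv w hw => by
    obtain ⟨i, hi, he⟩ := TFA.exists_back h.hM.fam h.hF1 (List.mem_toFinset.1 hv)
      (List.mem_toFinset.1 hw)
    exact ⟨i, by rw [List.toFinset_card_of_nodup h.hM.fam.nod]; exact hi, he⟩
  hN := by
    rw [List.toFinset_card_of_nodup h.hM.fam.nod]
    exact h.big
  hsymm := by
    rintro Z l s t ⟨y, hy, he, hl⟩
    exact ⟨y, hy, he, hl.symm⟩
  hmono := by
    rintro Z l l' s t hll ⟨y, hy, he, hl⟩
    exact ⟨y, hy, he, hl.mono hll⟩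
  R1 := by
    rintro Z l s t ⟨y, hy, he, hl⟩ hs ht hne i hi
    exact link_far h.hM (List.mem_toFinset.1 hs) hl.symm hne i hi
  R3 := by
    rintro Z l s t ⟨y, hy, he, hl⟩ hs ht hne a c hac
    exact link_nonadj h.hM (List.mem_toFinset.1 hs) (List.mem_toFinset.1 ht) hne hl
      (noRet_of_link h.hM h.hF1 (List.mem_toFinset.1 hs) (List.mem_toFinset.1 ht) hne hl) hac
  R2 := by
    rintro Z hZ Z' hZ' hZZ l l' s t a c ⟨y, hy, rfl, hl⟩ hs ht hne ha hal hc hcl
      ⟨y', hy', rfl, hl'⟩
    have hs' := List.mem_toFinset.1 hs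
    have ht' := List.mem_toFinset.1 ht
    have e1 : a - 1 + 1 = a := by omega
    have e2 : c - 1 + 1 = c := by omega
    rw [← e1, ← e2] at hl'
    have hyy : y' ∉ comp G F y := fun hc => hZZ (comp_eq hc).symm
    have f1 := link_far h.hM hs' hl.symm hne
    have f2 := link_far h.hM ht' hl (Ne.symm hne)
    have := hub3r h.hM (noRet_of_link h.hM h.hF1 hs' ht' hne hl) hs' ht' hne hy hy' hyy
      (a := a - 1) (b := c - 1) (by omega) (by omega) (fun i _ hi => f1 i (by omega))
      (fun i _ hi => f2 i (by omega)) hl hl'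
    omega
  hm := fun Z hZ => h.one_le hZ
  hnm := fun Z _ v _ => Finset.card_filter_le _ _
  hns := by
    intro Z hZ v hv hn
    obtain ⟨x, hx, rfl⟩ := Finset.mem_image.1 hZ
    obtain ⟨y, hy⟩ := Finset.card_pos.1 hn
    obtain ⟨hyJ, hvy⟩ := Finset.mem_filter.1 hy
    obtain ⟨hyJ, hyc⟩ := Finset.mem_inter.1 hyJ
    have hg := h.good y hyJ
    have := rich_of_mem hg (List.mem_toFinset.1 hv) hvy
    rw [comp_eq hyc] at this
    exact this
  hsA := by
    rintro Z hZ v hv ⟨x, hx, x', hx', h1, h2, h3⟩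
    exact ⟨x, hx, h1⟩
  htwo := by
    classical
    intro Z hZ
    obtain ⟨x, hx, rfl⟩ := Finset.mem_image.1 hZ
    have hb := h.big
    have hlen : 1 < F.flatten.toFinset.card := by
      rw [List.toFinset_card_of_nodup h.hM.fam.nod]
      omega
    obtain ⟨u, hu, u', hu', hne⟩ := Finset.one_lt_card.1 hlen
    obtain ⟨v, hv, hvu, hvq⟩ := exists_hub h.h2 (h.JU hx) (List.mem_toFinset.1 hu)
      (List.mem_toFinset.1 hu') (Ne.symm hne)
    obtain ⟨w, hw, hwv, hwq⟩ := exists_hub h.h2 (h.JU hx) hv (List.mem_toFinset.1 hu) (Ne.symm hvu)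
    exact ⟨v, List.mem_toFinset.2 hv, w, List.mem_toFinset.2 hw, Ne.symm hwv, hvq, hwq⟩
  L0 := by
    rintro Z hZ v hv w hw hne hstr ⟨q, hq, hwq⟩
    obtain ⟨x, hx, rfl⟩ := Finset.mem_image.1 hZ
    have h1 := rich_link' (h.JU hx) (h.sur x hx) hstr hq hwq
    have h2 := h.card_comps x hx
    have h3 := h.card_W x
    exact ⟨x, h.JU hx, rfl, h1.mono (by omega)⟩
  F1 := by
    rintro Z hZ v hv w hw hne hn hA
    obtain ⟨x, hx, rfl⟩ := Finset.mem_image.1 hZ
    obtain ⟨v', hv', hP⟩ := h.p1 x hx _ (Finset.filter_subset (fun x => G.Adj v x) _)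
      (Finset.card_pos.1 hn)
    obtain ⟨hvJ, hvv⟩ := Finset.mem_filter.1 hv'
    have hg := h.good' hx hvJ
    have hvc := (Finset.mem_inter.1 hvJ).2
    have e := comp_eq hvc
    rw [← e] at hg hA
    obtain ⟨q, hq, hqne, hwq⟩ := other_nb hg (List.mem_toFinset.1 hw) hA
    rw [e] at hq
    obtain ⟨Q, h1, h2, h3, h4⟩ := hP q hq hqne
    refine ⟨x, h.JU hx, rfl, Q, v', q, h1, h2, h3, ?_, hvv, hwq⟩
    have h5 := h.card_others x
    have h6 := h.card_W x
    omega
  F2 := by
    rintro Z hZ v hv w hw hne hn hn'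
    obtain ⟨x, hx, rfl⟩ := Finset.mem_image.1 hZ
    obtain ⟨v', hv', w', hw', hne', Q, h1, h2, h3, h4⟩ := h.p2 x hx _
      (Finset.filter_subset (fun x => G.Adj v x) _) _
      (Finset.filter_subset (fun x => G.Adj w x) _)
      (Finset.card_pos.1 (by omega)) (Finset.card_pos.1 hn') (by
        rintro ⟨-, hc⟩
        omega)
    refine ⟨x, h.JU hx, rfl, Q, v', w', h1, h2, h3, ?_, (Finset.mem_filter.1 hv').2,
      (Finset.mem_filter.1 hw').2⟩
    have h5 := h.card_others x
    have h6 := h.card_W x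
    omega

theorem disj {Z Z' : Finset V} (hZ : Z ∈ J.image (comp G F)) (hZ' : Z' ∈ J.image (comp G F))
    (hne : Z ≠ Z') : Disjoint Z Z' := by
  rw [Finset.disjoint_left]
  intro y hy hy'
  apply hne
  obtain ⟨z, hz, rfl⟩ := Finset.mem_image.1 hZ
  obtain ⟨z', hz', rfl⟩ := Finset.mem_image.1 hZ'
  rw [← comp_eq hy, ← comp_eq hy']

/-- degrees of the members -/
theorem sum_J : ∑ v ∈ J, dU G Finset.univ v =
    ∑ Z ∈ J.image (comp G F), (∑ v ∈ J ∩ Z, dU G Z v + h.dat.T Z) := by
  classical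
  have hJ : J = (J.image (comp G F)).biUnion (fun Z => J ∩ Z) := by
    ext y
    rw [Finset.mem_biUnion]
    constructor
    · intro hy
      exact ⟨comp G F y, Finset.mem_image.2 ⟨y, hy, rfl⟩, Finset.mem_inter.2
        ⟨hy, self_comp (h.JU hy)⟩⟩
    · rintro ⟨Z, _, hy⟩
      exact (Finset.mem_inter.1 hy).1
  have e1 : ∑ v ∈ J, dU G Finset.univ v =
      ∑ Z ∈ J.image (comp G F), ∑ v ∈ J ∩ Z, dU G Finset.univ v := by
    conv_lhs => rw [hJ]
    rw [Finset.sum_biUnion]
    intro Z hZ Z' hZ' hne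
    rw [Function.onFun]
    exact (h.disj hZ hZ' hne).mono Finset.inter_subset_right Finset.inter_subset_right
  rw [e1]
  refine Finset.sum_congr rfl (fun Z hZ => ?_)
  have e2 : ∀ v ∈ J ∩ Z, dU G Finset.univ v =
      dU G Z v + (F.flatten.toFinset.filter (fun y => G.Adj y v)).card := by
    intro v hv
    obtain ⟨x, hx, rfl⟩ := Finset.mem_image.1 hZ
    have hvc := (Finset.mem_inter.1 hv).2
    unfold dU
    rw [← Finset.card_union_of_disjoint]
    · congr 1
      ext y
      rw [Finset.mem_union, Finset.mem_filter, Finset.mem_filter, Finset.mem_filter]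
      constructor
      · rintro ⟨-, hy⟩
        by_cases hyc : y ∈ comp G F x
        · exact Or.inl ⟨hyc, hy⟩
        · exact Or.inr ⟨List.mem_toFinset.2 (comp_out hvc hyc hy), hy.symm⟩
      · rintro (⟨-, hy⟩ | ⟨-, hy⟩)
        · exact ⟨Finset.mem_univ _, hy⟩
        · exact ⟨Finset.mem_univ _, hy.symm⟩
    · rw [Finset.disjoint_left]
      intro y hy hy'
      exact comp_ncov (Finset.mem_filter.1 hy).1 (List.mem_toFinset.1 (Finset.mem_filter.1 hy').1)
  rw [Finset.sum_congr rfl e2, Finset.sum_add_distrib]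
  congr 1
  have e3 := Finset.sum_card_bipartiteAbove_eq_sum_card_bipartiteBelow (s := F.flatten.toFinset)
    (t := J ∩ Z) (fun y v => G.Adj y v)
  exact e3.symm

/-- the vertex outside of the members: the new set of members has a small degree sum -/
theorem exists_p (hJ : J.Nonempty) : ∃ p ∈ F.flatten, p ∉ W ∧ (∀ x ∈ J, ¬ G.Adj p x) ∧
    ∑ v ∈ insert p J, dU G Finset.univ v + 1 ≤ Fintype.card V := by
  classical
  obtain ⟨p, hp, hpW, hstr, ha⟩ := h.dat.count (by
    obtain ⟨x, hx⟩ := hJ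
    exact ⟨comp G F x, Finset.mem_image.2 ⟨x, hx, rfl⟩⟩)
  have hpF : p ∈ F.flatten := List.mem_toFinset.1 hp
  have hpJ : p ∉ J := fun hc => mem_unc.1 (h.JU hc) hpF
  have hK : h.dat.K = J.image (comp G F) := rfl
  have hnr : ∀ x ∈ J, ¬ Rich G W F (comp G F x) p := fun x hx =>
    hstr _ (Finset.mem_image.2 ⟨x, hx, rfl⟩)
  refine ⟨p, hpF, hpW, fun x hx hpx => hnr x hx (rich_of_mem (h.good x hx) hpF hpx), ?_⟩
  rw [Finset.sum_insert hpJ, h.sum_J]
  set K := J.image (comp G F) with hKdef
  let a : Finset V → ℕ := fun Z => if (Z.filter (fun y => G.Adj p y)).Nonempty then 1 else 0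
  have h5 := ha a (fun Z _ => by
    show (if (Z.filter (fun y => G.Adj p y)).Nonempty then 1 else 0) ≤ 1
    split <;> omega) (fun Z _ hA => by
    show (if (Z.filter (fun y => G.Adj p y)).Nonempty then 1 else 0) = 0
    rw [if_neg]
    rintro ⟨q, hq⟩
    exact hA ⟨q, (Finset.mem_filter.1 hq).1, (Finset.mem_filter.1 hq).2⟩)
  have h1 : ∀ Z ∈ K, ∑ v ∈ J ∩ Z, dU G Z v + (Z.filter (fun y => G.Adj p y)).card + 1 ≤
      Z.card + a Z := by
    intro Z hZ
    obtain ⟨x, hx, rfl⟩ := Finset.mem_image.1 hZ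
    by_cases hne : ((comp G F x).filter (fun y => G.Adj p y)).Nonempty
    · have h2 := h.near x hx _ (Finset.filter_subset (fun y => G.Adj p y) _) (by
        intro y hy z hz
        by_contra hcon
        exact hnr x hx ⟨y, (Finset.mem_filter.1 hy).1, z, (Finset.mem_filter.1 hz).1,
          (Finset.mem_filter.1 hy).2, (Finset.mem_filter.1 hz).2, hcon⟩)
      have h3 : a (comp G F x) = 1 := if_pos hne
      omega
    · have h2 := h.near x hx {x} (by simpa using self_comp (h.JU hx)) (by
        intro y hy z hz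
        rw [Finset.mem_singleton] at hy hz
        rw [hy, hz]
        exact near_refl _)
      rw [Finset.not_nonempty_iff_eq_empty] at hne
      rw [Finset.card_singleton] at h2
      rw [hne, Finset.card_empty]
      omega
  have h1' : ∑ Z ∈ K, ∑ v ∈ J ∩ Z, dU G Z v + ∑ Z ∈ K, (Z.filter (fun y => G.Adj p y)).card +
      K.card ≤ ∑ Z ∈ K, Z.card + ∑ Z ∈ K, a Z := by
    rw [Finset.card_eq_sum_ones, ← Finset.sum_add_distrib, ← Finset.sum_add_distrib,
      ← Finset.sum_add_distrib]
    exact Finset.sum_le_sum h1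
  have hsub : K.biUnion id ⊆ unc F := by
    intro y hy
    obtain ⟨Z, hZ, hy⟩ := Finset.mem_biUnion.1 hy
    obtain ⟨x, hx, rfl⟩ := Finset.mem_image.1 hZ
    exact (mem_comp.1 hy).1
  have h4 : ∑ Z ∈ K, Z.card + (unc F \ K.biUnion id).card + F.flatten.toFinset.card =
      Fintype.card V := by
    have e1 : (K.biUnion id).card = ∑ Z ∈ K, Z.card := by
      rw [Finset.card_biUnion]
      · rfl
      · intro Z hZ Z' hZ' hne
        exact h.disj hZ hZ' hne
    have e2 := Finset.card_sdiff_add_card_eq_card hsub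
    have e3 : unc F = Finset.univ \ F.flatten.toFinset := by
      ext y
      rw [mem_unc, Finset.mem_sdiff, List.mem_toFinset]
      simp
    have e4 := Finset.card_sdiff_add_card_eq_card (Finset.subset_univ F.flatten.toFinset)
    rw [← e3, Finset.card_univ] at e4
    omega
  have h3 : dU G Finset.univ p + h.dat.nn p + 1 ≤ F.flatten.toFinset.card +
      ∑ Z ∈ K, (Z.filter (fun y => G.Adj p y)).card + (unc F \ K.biUnion id).card := by
    have e1 : (F.flatten.toFinset.filter (fun y => G.Adj p y)).card + h.dat.nn p + 1 ≤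
        F.flatten.toFinset.card := by
      have e2 : h.dat.nn p = (F.flatten.toFinset.filter
          (fun z => z ≠ p ∧ ¬ G.Adj p z)).card := by
        unfold H88C.Dat.nn
        congr 1
        ext z
        simp only [Finset.mem_filter]
        exact Iff.rfl
      rw [e2, ← Finset.card_union_of_disjoint, ← Finset.card_insert_of_notMem (a := p)]
      · refine Finset.card_le_card ?_
        intro y hy
        rcases Finset.mem_insert.1 hy with rfl | hy
        · exact hp
        · rcases Finset.mem_union.1 hy with hy | hy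
          · exact (Finset.mem_filter.1 hy).1
          · exact (Finset.mem_filter.1 hy).1
      · intro hc
        rcases Finset.mem_union.1 hc with hc | hc
        · exact G.loopless.irrefl p (Finset.mem_filter.1 hc).2
        · exact (Finset.mem_filter.1 hc).2.1 rfl
      · rw [Finset.disjoint_left]
        intro y hy hy'
        exact (Finset.mem_filter.1 hy').2.2 (Finset.mem_filter.1 hy).2
    have e3 : dU G Finset.univ p ≤ (F.flatten.toFinset.filter (fun y => G.Adj p y)).card +
        ∑ Z ∈ K, (Z.filter (fun y => G.Adj p y)).card + (unc F \ K.biUnion id).card := by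
      have e4 : Finset.univ.filter (fun y => G.Adj p y) ⊆
          (F.flatten.toFinset.filter (fun y => G.Adj p y) ∪
          K.biUnion (fun Z => Z.filter (fun y => G.Adj p y))) ∪ (unc F \ K.biUnion id) := by
        intro y hy
        have hpy := (Finset.mem_filter.1 hy).2
        rw [Finset.mem_union, Finset.mem_union]
        by_cases hyF : y ∈ F.flatten
        · exact Or.inl (Or.inl (Finset.mem_filter.2 ⟨List.mem_toFinset.2 hyF, hpy⟩))
        · by_cases hyK : y ∈ K.biUnion id
          · obtain ⟨Z, hZ, hyZ⟩ := Finset.mem_biUnion.1 hyK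
            exact Or.inl (Or.inr (Finset.mem_biUnion.2 ⟨Z, hZ, Finset.mem_filter.2 ⟨hyZ, hpy⟩⟩))
          · exact Or.inr (Finset.mem_sdiff.2 ⟨mem_unc.2 hyF, hyK⟩)
      unfold dU
      refine (Finset.card_le_card e4).trans ((Finset.card_union_le _ _).trans ?_)
      refine Nat.add_le_add_right ((Finset.card_union_le _ _).trans ?_) _
      exact Nat.add_le_add_left Finset.card_biUnion_le _
    omega
  rw [Finset.sum_add_distrib]
  rw [hK, Finset.sum_add_distrib] at h5
  omega

end MS

end Pool.Agent.H32W
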