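import Pool.Agent.H32W.MainStep
import Pool.Agent.H92P.CutStep
import Pool.Agent.H62P.TransP

/-! Q1 for all `k` and all orders. -/

set_option autoImplicit false

namespace Pool.Agent.H32W

open Pool.Agent.TF82 Pool.Agent.TFC Pool.Agent.H62P

universe u

/-- if every independent set has fewer elements than the degree of each of its vertices, and the
degree sums of `k + 1` independent vertices are at least the order, then at most `k` disjoint
cycles cover the graph -/
theorem q1_full {V : Type u} [Fintype V] [DecidableEq V] (G : SimpleGraph V)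
    [DecidableRel G.Adj] (k : ℕ)
    (hC : ∀ I : Finset V, G.IsIndepSet (I : Set V) → ∀ v ∈ I,
      I.card + 1 ≤ dU G Finset.univ v)
    (hσ : ∀ I : Finset V, G.IsIndepSet (I : Set V) → I.card = k + 1 →
      Fintype.card V ≤ ∑ v ∈ I, dU G Finset.univ v) : Cov G k :=
  q1_of_pkg Pool.Agent.H92P.cutStepP Pool.Agent.H92P.sideStepP mainStepP
    Pool.Agent.H62P.transferP G k hC hσ

end Pool.Agent.H32W
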