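import Pool.Agent.H32W.Bridge
import Pool.Agent.H6T.Lab4
import Pool.Agent.H62P.MainFin
import Pool.Agent.H17P.Gam
import Pool.Agent.H37F.M1S
import Pool.Agent.H40C.One

/-! The two connected step of the package. -/

set_option autoImplicit false

namespace Pool.Agent.H32W

open List Pool.Agent.TF82 Pool.Agent.TFC Pool.Agent.TFB Pool.Agent.TFN Pool.Agent.TFG
  Pool.Agent.EG31 Pool.Agent.H18C Pool.Agent.H62P Pool.Agent.H72N Pool.Agent.H6T.Lab

universe u

set_option linter.unusedSectionVars false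
set_option linter.unusedVariables false

section

variable {V : Type u} [DecidableEq V] [Fintype V] {G : SimpleGraph V} {L : List (List V)}
  {R : Finset V} {I : V → Finset V}

theorem sdiff_comp (hR : Reps G L R) (hI : ∀ y ∈ R, I y ⊆ comp G L y) {y : V} (hy : y ∈ R) :
    (R.biUnion I \ comp G L y).card = ∑ j ∈ R.erase y, (I j).card := by
  have h1 : R.biUnion I \ comp G L y = (R.erase y).biUnion I := by
    ext v
    rw [Finset.mem_sdiff, Finset.mem_biUnion, Finset.mem_biUnion]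
    constructor
    · rintro ⟨⟨j, hj, hv⟩, hn⟩
      refine ⟨j, Finset.mem_erase.2 ⟨?_, hj⟩, hv⟩
      rintro rfl
      exact hn (hI _ hj hv)
    · rintro ⟨j, hj, hv⟩
      obtain ⟨hne, hj⟩ := Finset.mem_erase.1 hj
      exact ⟨⟨j, hj, hv⟩, fun hc => Finset.disjoint_left.1 (hR.dis j hj y hy hne) (hI j hj hv) hc⟩
  rw [h1]
  refine Finset.card_biUnion (fun j hj j' hj' h => ?_)
  exact hR.pwd hI (Finset.mem_of_mem_erase hj) (Finset.mem_of_mem_erase hj') h

theorem inter_comp (hR : Reps G L R) (hI : ∀ y ∈ R, I y ⊆ comp G L y) {y : V} (hy : y ∈ R) :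
    R.biUnion I ∩ comp G L y = I y := by
  ext v
  rw [Finset.mem_inter, Finset.mem_biUnion]
  constructor
  · rintro ⟨⟨j, hj, hv⟩, hn⟩
    by_cases h : j = y
    · rw [← h]
      exact hv
    · exact absurd hn (Finset.disjoint_left.1 (hR.dis j hj y hy h) (hI j hj hv))
  · intro hv
    exact ⟨⟨y, hy, hv⟩, hI y hy hv⟩

end

/-- the two connected step -/
theorem mainStepP : MainStepP.{u} := by
  classical
  intro V _ _ G _ S b f hK hf h2 hIH
  have hf1 := hK.pos hf
  by_cases hf2 : f = 1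
  · subst hf2
    exact Pool.Agent.H40C.pkg_one hK h2
  have hf2 : 2 ≤ f := by omega
  obtain ⟨c, hM⟩ := exists_main_cycle hK.cw hK.ne
  obtain ⟨R, hR⟩ := Pool.Agent.H62P.exists_reps G [c]
  have hM' : IsMax G [c].length [c] := hM
  have hCb : CWb G Finset.univ S b := fun I hI hind v hv =>
    hK.sur I hI hind v hv ⟨Finset.mem_univ _, (Finset.mem_sdiff.1 (hI hv)).2,
      h2 v (Finset.mem_univ _)⟩
  have hcyc : CycL G c := hM.fam.cyc c (by simp)
  -- the components are smaller
  have hsm : ∀ y, (comp G [c] y).card < Fintype.card V := by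
    intro y
    obtain ⟨w, hw⟩ : ∃ w, w ∈ c := by
      have := hcyc.2.1
      exact List.exists_mem_of_length_pos (by omega)
    refine Finset.card_lt_univ_of_notMem (x := w) (fun hc => ?_)
    exact comp_ncov hc (by simpa using hw)
  have hcw : ∀ y ∈ unc [c], CW G (comp G [c] y) (Sp G S [c] (comp G [c] y)) := by
    intro y hy I hI hind v hv
    have := K0 hCb hM' hy I hI hind v hv
    omega
  -- the numbers of cycles
  have hm : ∀ y, ∃ m, y ∈ R → MinCov G (comp G [c] y) (Sp G S [c] (comp G [c] y)) m := by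
    intro y
    by_cases hy : y ∈ R
    · obtain ⟨m, h1, h3⟩ := exists_min_cov Sp_sub (hcw y (hR.sub hy))
      exact ⟨m, fun _ => ⟨h1, h3⟩⟩
    · exact ⟨0, fun h => absurd h hy⟩
  choose m hm using hm
  have hpk : ∀ (n : V → ℕ), (∀ y ∈ R, CWg G (comp G [c] y) (Sp G S [c] (comp G [c] y)) (n y)) →
      ∀ y, ∃ I : Finset V, y ∈ R → (I ⊆ comp G [c] y ∧ I.card = m y ∧
        (∀ v ∈ I, Good G (comp G [c] y) (Sp G S [c] (comp G [c] y)) v) ∧
        G.IsIndepSet (I : Set V) ∧
        (I.Nonempty → Pkg G (comp G [c] y) (Sp G S [c] (comp G [c] y)) (n y) I.card I)) := by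
    intro n hn y
    by_cases hy : y ∈ R
    swap
    · exact ⟨∅, fun h => absurd h hy⟩
    by_cases hne : (comp G [c] y \ Sp G S [c] (comp G [c] y)).Nonempty
    · obtain ⟨I, hI⟩ := hIH _ _ (n y) (m y) (hsm y)
        ⟨Sp_sub, Pool.Agent.H6T.Lab.comp_conn1 (hR.sub hy), hne, hcw y (hR.sub hy), fun I hI hind v hv hg =>
          hn y hy I hI hind v hv hg.nc⟩ (hm y hy)
      refine ⟨I, fun _ => ⟨fun v hv => (hI.good v hv).mem, hI.card, hI.good, hI.ind, fun _ => ?_⟩⟩
      rw [hI.card]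
      exact hI
    · refine ⟨∅, fun _ => ⟨Finset.empty_subset _, ?_, by simp, by simp, by simp⟩⟩
      have h0 : CovW G (comp G [c] y) (Sp G S [c] (comp G [c] y)) 0 :=
        ⟨[], by simp, ⟨by simp, by simp⟩, by simp, fun x hx => absurd ⟨x, hx⟩ hne⟩
      have := (hm y hy).le h0
      rw [Finset.card_empty]
      omega
  -- first lists, only for the numbers
  choose I0 hI0 using hpk (fun _ => 0) (fun y hy => (cwg_of_cwb (K0 hCb hM' (hR.sub hy))).mono
    (Nat.zero_le _))
  have hlab : ∀ I : V → Finset V, (∀ y ∈ R, I y ⊆ comp G [c] y ∧ (I y).card = m y ∧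
      (∀ v ∈ I y, Good G (comp G [c] y) (Sp G S [c] (comp G [c] y)) v) ∧
      G.IsIndepSet (I y : Set V)) → ∀ y ∈ unc [c],
      CWg G (comp G [c] y) (Sp G S [c] (comp G [c] y))
        (b + (R.biUnion I \ comp G [c] y).card + (S \ comp G [c] y).card) := by
    intro I hI
    refine lab hCb h2 hM' rfl ?_ ?_ ?_ ?_
    · intro v hv
      obtain ⟨y, hy, hv⟩ := Finset.mem_biUnion.1 hv
      exact (mem_comp.1 ((hI y hy).1 hv)).1
    · exact hR.indep (fun y hy => (hI y hy).1) (fun y hy => (hI y hy).2.2.2)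
    · intro v hv
      obtain ⟨y, hy, hv⟩ := Finset.mem_biUnion.1 hv
      rw [comp_eq ((hI y hy).1 hv)]
      exact (hI y hy).2.2.1 v hv
    · intro y hy v hv
      obtain ⟨r, hr, hyr⟩ := hR.cov y hy
      have he := comp_eq hyr
      rw [he] at hv ⊢
      have h1 : 1 ≤ m r := by
        by_contra hcon
        have h0 : m r = 0 := by omega
        have h3 := (hm r hr).1
        rw [h0] at h3
        exact cov_pos ⟨v, Finset.mem_sdiff.2 ⟨hv.mem, hv.nS⟩⟩ h3
      rw [← (hI r hr).2.1] at h1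
      obtain ⟨x, hx⟩ := Finset.card_pos.1 h1
      exact ⟨x, Finset.mem_biUnion.2 ⟨r, hr, hx⟩, (hI r hr).1 hx⟩
  have hl0 := hlab I0 (fun y hy => ⟨(hI0 y hy).1, (hI0 y hy).2.1, (hI0 y hy).2.2.1,
    (hI0 y hy).2.2.2.1⟩)
  set n : V → ℕ := fun y => b + (R.biUnion I0 \ comp G [c] y).card + (S \ comp G [c] y).card
    with hn
  choose I hI using hpk n (fun y hy => hl0 y (hR.sub hy))
  have hIc : ∀ y ∈ R, I y ⊆ comp G [c] y := fun y hy => (hI y hy).1
  have hI0c : ∀ y ∈ R, I0 y ⊆ comp G [c] y := fun y hy => (hI0 y hy).1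
  have hP : ∀ y ∈ R, (I y).Nonempty →
      Pkg G (comp G [c] y) (Sp G S [c] (comp G [c] y)) (n y) (I y).card (I y) :=
    fun y hy => (hI y hy).2.2.2.2
  have hny : ∀ y ∈ R, n y = b + (R.biUnion I \ comp G [c] y).card + (S \ comp G [c] y).card := by
    intro y hy
    rw [hn]
    simp only
    rw [sdiff_comp hR hI0c hy, sdiff_comp hR hIc hy]
    congr 2
    refine Finset.sum_congr rfl (fun j hj => ?_)
    rw [(hI j (Finset.mem_of_mem_erase hj)).2.1, (hI0 j (Finset.mem_of_mem_erase hj)).2.1]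
  have hsur : ∀ y ∈ R, (I y).Nonempty →
      b + ∑ j ∈ R.erase y, (I j).card + (S \ comp G [c] y).card ≤ n y := by
    intro y hy _
    rw [hny y hy, sdiff_comp hR hIc hy]
  have hk : f ≤ 1 + ∑ y ∈ R, (I y).card := by
    have h1 := hR.lt_of_not_cov hM.fam m (W := S) (k := f - 1) (fun y hy =>
      (Pool.Agent.H37F.cov_Sp hK.cw hM' (hR.sub hy) (m y)).1 (hm y hy).1) (hf.2 _ (by omega))
    have h3 : ∑ y ∈ R, (I y).card = ∑ y ∈ R, m y :=
      Finset.sum_congr rfl (fun y hy => (hI y hy).2.1)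
    omega
  obtain ⟨hlen, hgam⟩ := Pool.Agent.H17P.gam_glue h2 hM hR hP hsur hk hf2
  -- the count
  set J := R.biUnion I with hJ
  have hJy : ∀ x ∈ J, ∃ y ∈ R, x ∈ I y ∧ comp G [c] x = comp G [c] y := by
    intro x hx
    obtain ⟨y, hy, hx⟩ := Finset.mem_biUnion.1 hx
    exact ⟨y, hy, hx, comp_eq (hIc y hy hx)⟩
  obtain ⟨y0, hy0, hne0⟩ : ∃ y ∈ R, (I y).Nonempty := by
    by_contra hcon
    push Not at hcon
    have h0 : ∑ y ∈ R, (I y).card = 0 := by
      refine Finset.sum_eq_zero fun y hy => ?_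
      rw [hcon y hy, Finset.card_empty]
    omega
  have hJne : J.Nonempty := by
    obtain ⟨x, hx⟩ := hne0
    exact ⟨x, Finset.mem_biUnion.2 ⟨y0, hy0, hx⟩⟩
  have hJU : J ⊆ unc [c] := by
    intro v hv
    obtain ⟨y, hy, hv⟩ := Finset.mem_biUnion.1 hv
    exact (mem_comp.1 (hIc y hy hv)).1
  have hJi : G.IsIndepSet (J : Set V) := hR.indep hIc (fun y hy => (hI y hy).2.2.2.1)
  have hbig : (J.image (comp G [c])).card + 2 + (S ∩ [c].flatten.toFinset).card <
      [c].flatten.length := by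
    have h1 : (J.image (comp G [c])).card ≤ 1 + ∑ j ∈ R.erase y0, (I j).card := by
      have h3 : J.image (comp G [c]) ⊆
          insert (comp G [c] y0) ((J \ comp G [c] y0).image (comp G [c])) := by
        intro Z hZ
        obtain ⟨x, hx, rfl⟩ := Finset.mem_image.1 hZ
        by_cases hxy : x ∈ comp G [c] y0
        · rw [comp_eq hxy]
          exact Finset.mem_insert_self _ _
        · exact Finset.mem_insert_of_mem (Finset.mem_image.2 ⟨x, Finset.mem_sdiff.2 ⟨hx, hxy⟩,
            rfl⟩)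
      have h4 := (Finset.card_le_card h3).trans (Finset.card_insert_le _ _)
      have h5 : ((J \ comp G [c] y0).image (comp G [c])).card ≤ (J \ comp G [c] y0).card :=
        Finset.card_image_le
      have h6 : (J \ comp G [c] y0).card = ∑ j ∈ R.erase y0, (I j).card :=
        sdiff_comp hR hIc hy0
      omega
    have h3 : (S ∩ [c].flatten.toFinset).card ≤ (S \ comp G [c] y0).card := by
      refine Finset.card_le_card ?_
      intro y hy
      obtain ⟨g1, g2⟩ := Finset.mem_inter.1 hy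
      exact Finset.mem_sdiff.2 ⟨g1, fun hc => comp_ncov hc (List.mem_toFinset.1 g2)⟩
    have h4 := hsur y0 hy0 hne0
    have h5 : 1 ≤ (I y0).card := Finset.card_pos.2 hne0
    have h6 := (Pool.Agent.H37F.gam_step (b := 0)
      (f := (J.image (comp G [c])).card + (S ∩ [c].flatten.toFinset).card + 1) hM h2
      (fun x hx => (mem_comp.1 hx).1) (hP y0 hy0 hne0) (by omega)).1
    have h7 : [c].flatten.length = c.length := by simp
    omega
  have hMS : MS G S b [c] J := by
    refine ⟨hM', rfl, h2, hJU, hJi, ?_, ?_, ?_, ?_, ?_, hbig⟩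
    · intro x hx
      obtain ⟨y, hy, hxI, he⟩ := hJy x hx
      rw [he]
      exact (hI y hy).2.2.1 x hxI
    · intro x hx
      exact hlab I (fun y hy => ⟨(hI y hy).1, (hI y hy).2.1, (hI y hy).2.2.1,
        (hI y hy).2.2.2.1⟩) x (hJU hx)
    · intro x hx
      obtain ⟨y, hy, hxI, he⟩ := hJy x hx
      rw [he, hJ, inter_comp hR hIc hy]
      exact (hP y hy ⟨x, hxI⟩).near
    · intro x hx
      obtain ⟨y, hy, hxI, he⟩ := hJy x hx
      rw [he, hJ, inter_comp hR hIc hy, ← hny y hy]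
      exact (hP y hy ⟨x, hxI⟩).p1
    · intro x hx
      obtain ⟨y, hy, hxI, he⟩ := hJy x hx
      rw [he, hJ, inter_comp hR hIc hy, ← hny y hy]
      exact (hP y hy ⟨x, hxI⟩).p2
  obtain ⟨p, hp, hpS, hpJ, hsum⟩ := hMS.exists_p hJne
  have hpc : p ∈ c := by simpa using hp
  have hpn : p ∉ J := fun hc => mem_unc.1 (hJU hc) hp
  refine main_fin hK h2 hM hR (S' := fun y => Sp G S [c] (comp G [c] y)) (I := I) (bb := n)
    ?_ (fun y hy => (hI y hy).2.2.2.1) ?_ (fun y hy => Finset.subset_union_left) hsur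
    (fun y hy hne => (hP y hy hne).p1) (fun y hy hne => (hP y hy hne).p2) hlen hgam hpc hpS
    (fun y hy v hv => hpJ v (Finset.mem_biUnion.2 ⟨y, hy, hv⟩)) hk ?_
  · intro y hy v hv
    have hg := (hI y hy).2.2.1 v hv
    exact Finset.mem_sdiff.2 ⟨hg.mem, fun hS => hg.nS (Finset.mem_union_left _
      (Finset.mem_inter.2 ⟨hS, hg.mem⟩))⟩
  · intro y hy v hv w hw hvw
    have hg := (hI y hy).2.2.1 v hv
    have he := comp_eq (hIc y hy hv)
    rw [← he] at hg ⊢
    obtain ⟨q, hq, hqv, hwq⟩ := other_nb hg (by simpa using hw : w ∈ [c].flatten)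
      ⟨v, self_comp (hJU (Finset.mem_biUnion.2 ⟨y, hy, hv⟩)), hvw.symm⟩
    exact ⟨q, hq, hqv, hwq.symm⟩
  · rw [Finset.sum_insert hpn, hJ, hR.sum hIc] at hsum
    have h3 : ∑ y ∈ R, ∑ v ∈ I y, dU G Finset.univ v = ∑ y ∈ R, ∑ v ∈ I y,
        (dU G (comp G [c] y) v + ((att G [c] y).filter (fun w => G.Adj v w)).card) := by
      refine Finset.sum_congr rfl fun y hy => Finset.sum_congr rfl fun v hv => ?_
      exact deg_comp (hR.sub hy) (hIc y hy hv)
    have h4 := hR.card_univ hM.fam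
    rw [Finset.card_univ] at h4
    have h7 : [c].flatten.length = c.length := by simp
    rw [h3] at hsum
    omega

end Pool.Agent.H32W
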