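import Pool.Agent.TFG.Win

/-! Windows before linked hubs, with link lengths that depend on the pair of hubs. -/

namespace Pool.Agent.H32W

open List Pool.Agent.TF82 Pool.Agent.TFC Pool.Agent.TFB Pool.Agent.TFN Pool.Agent.TFG

universe u

set_option linter.unusedSectionVars false
set_option linter.unusedVariables false

variable {V : Type u} [DecidableEq V]

/-- SUPPLY: `p` is at distance `x + 1` before the hub `w`; every other hub `t` of the set `W` gives
`mu t` vertices which are not adjacent to `p`, if `mu t + x <= lk w t` and `mu t <= lk s t` for all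
other hubs `s` of `W`. -/
theorem supply [Fintype V] {G : SimpleGraph V} [DecidableRel G.Adj] {F : List (List V)}
    (hM : IsMax G F.length F) {y w : V} {N : ℕ} (hR : NoRet F N) {W : Finset V}
    (hS : ∀ s ∈ W, s ∈ F.flatten) {lk : V → V → ℕ} (hsymm : ∀ s t, lk s t = lk t s)
    (hN : ∀ s ∈ W, ∀ t ∈ W, s ≠ t → lk s t ≤ N)
    (hlink : ∀ s ∈ W, ∀ t ∈ W, s ≠ t → Link G F y (lk s t) s t)
    (hw : w ∈ W) {x : ℕ} {mu : V → ℕ}
    (hmu : ∀ t ∈ W, t ≠ w → mu t + x ≤ lk w t)
    (hmu' : ∀ s ∈ W, ∀ t ∈ W, s ≠ t → t ≠ w → mu t ≤ lk s t) :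
    ∑ t ∈ W.erase w, mu t ≤ (F.flatten.toFinset.filter (fun z =>
      z ≠ (prv F)^[x + 1] w ∧ ¬ G.Adj ((prv F)^[x + 1] w) z)).card := by
  classical
  have hcard : ((W.erase w).sigma (fun t => Finset.range (mu t))).card
      = ∑ t ∈ W.erase w, mu t := by
    rw [Finset.card_sigma]
    simp
  rw [← hcard]
  refine Finset.card_le_card_of_injOn (fun q : (Σ _ : V, ℕ) => (prv F)^[q.2 + 1] q.1) ?_ ?_
  · rintro ⟨t, j⟩ hq
    rw [Finset.mem_coe, Finset.mem_sigma, Finset.mem_erase, Finset.mem_range] at hq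
    obtain ⟨⟨htw, ht⟩, hj⟩ := hq
    simp only at htw ht hj
    have hl := hlink w hw t ht (Ne.symm htw)
    have h1 := hmu t ht htw
    have h2 := hN w hw t ht (Ne.symm htw)
    rw [Finset.mem_coe, Finset.mem_filter, List.mem_toFinset]
    refine ⟨iter_mem hM.fam (hS t ht) _, ?_, ?_⟩
    · exact link_iter_ne (a := j + 1) (b := x + 1) hM (hS t ht) (hS w hw) htw hl.symm
        (by omega) (by omega)
    · exact link_nonadj (a := x) (b := j) hM (hS w hw) (hS t ht) (Ne.symm htw) hl
        (fun z hz i hi hi' => hR z hz i hi (by omega)) (by omega)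
  · rintro ⟨t, j⟩ hq ⟨t', j'⟩ hq' h
    rw [Finset.mem_coe, Finset.mem_sigma, Finset.mem_erase, Finset.mem_range] at hq hq'
    obtain ⟨⟨htw, ht⟩, hj⟩ := hq
    obtain ⟨⟨htw', ht'⟩, hj'⟩ := hq'
    simp only at htw ht hj htw' ht' hj' h
    have h1 := hmu t ht htw
    have h2 := hN w hw t ht (Ne.symm htw)
    have htt : t = t' := by
      by_contra hne
      have g1 := hmu' t' ht' t ht (Ne.symm hne) htw
      have g2 := hmu' t ht t' ht' hne htw'
      rw [hsymm t' t] at g1
      exact link_iter_ne (a := j + 1) (b := j' + 1) hM (hS t ht) (hS t' ht') hne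
        (hlink t ht t' ht' hne) (by omega) (by omega) h
    subst htt
    have hjj : j = j' := by
      by_contra hne
      have key : ∀ a c : ℕ, a < c → c < mu t → (prv F)^[a + 1] t ≠ (prv F)^[c + 1] t := by
        intro a c hac hc h
        have e1 : c + 1 = (a + 1) + (c - a) := by omega
        have e : (prv F)^[c + 1] t = (prv F)^[a + 1] ((prv F)^[c - a] t) := by
          rw [← Function.iterate_add_apply, ← e1]
        rw [e] at h
        have h1 := iter_inj hM.fam (hS t ht) (iter_mem hM.fam (hS t ht) _) (a + 1) h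
        exact hR t (hS t ht) (c - a) (by omega) (by omega) h1.symm
      rcases Nat.lt_or_gt_of_ne hne with h1 | h1
      · exact key j j' h1 hj' h
      · exact key j' j h1 hj h.symm
    rw [hjj]

end Pool.Agent.H32W
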